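import Mathlib

/-!
# Monochromatic triangle tilings under intermediate minimum degree

The tiling numbers `(C.1)` and `(C.2)` are refuted in the whole range
`6 n / 7 < δ < 10 n / 11` (up to additive constants).

Construction: three independent classes of size `n - δ` and two classes `Q₀`, `Q₁` of
nearly equal sizes; `Q₀` is a red clique, `Q₁` is a blue clique, and the edges between
the five classes follow the colouring of `K₅` without monochromatic triangle.
Then every red triangle has at least two vertices in `Q₀` and every blue triangle has at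
least two vertices in `Q₁`.
-/

namespace Pool.Agent.Results.MP_61eff6_co.TilingBoundsFail

open Finset

/-- The graph `G`, whose edges are coloured by `c` (`true` is red, `false` is blue; the
values of `c` on pairs which are not edges of `G` play no role), contains a monochromatic
copy of `m K₃`: there are `3 m` different vertices `t (i, j)` (`i < m`, `j < 3`) such
that for every `i` the vertices `t (i, 0)`, `t (i, 1)`, `t (i, 2)` are pairwise adjacent,
and all these `3 m` edges have the same colour `b`. -/
def HasMonoTiling {V : Type} (G : SimpleGraph V) (c : Sym2 V → Bool) (m : ℕ) : Prop :=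
  ∃ b : Bool, ∃ t : Fin m × Fin 3 → V, Function.Injective t ∧
    ∀ i j k, j ≠ k → G.Adj (t (i, j)) (t (i, k)) ∧ c s(t (i, j), t (i, k)) = b

open Classical in
/-- The assertion of Q1 for graphs with `n` vertices: for every graph `G` on `n` vertices
with minimum degree `δ` and every 2-edge-colouring of `G` the statements (C.1), (C.2) and
(C.3) hold. (`(5 δ - 4 n + 1) / 2` is the ceiling of `(5 δ - 4 n) / 2`; under the
conditions on `δ` all differences are nonnegative.) -/
def Assertion (n : ℕ) : Prop :=
  ∀ (G : SimpleGraph (Fin n)) (c : Sym2 (Fin n) → Bool),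
    (15 * n ≤ 17 * G.minDegree → HasMonoTiling G c ((G.minDegree + 1) / 5)) ∧
    (6 * n ≤ 7 * G.minDegree → 17 * G.minDegree ≤ 15 * n →
      HasMonoTiling G c ((4 * G.minDegree + 1 - 3 * n) / 3)) ∧
    (4 * n ≤ 5 * G.minDegree → 7 * G.minDegree ≤ 6 * n →
      HasMonoTiling G c ((5 * G.minDegree - 4 * n + 1) / 2))

/-- The class of a vertex: classes `2`, `3`, `4` have size `s`, class `0` has size `q`,
class `1` consists of the remaining vertices. -/
def cls (s q : ℕ) (v : ℕ) : Fin 5 :=
  if v < s then 2 else if v < 2 * s then 3 else if v < 3 * s then 4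
  else if v < 3 * s + q then 0 else 1

/-- Adjacency of classes. -/
def adjC (a b : Fin 5) : Bool := decide (a ≠ b) || decide (a = 0) || decide (a = 1)

/-- Red pairs of classes. -/
def redC (a b : Fin 5) : Bool :=
  (decide (a = 0) && decide (b = 0)) || decide (b = a + 1) || decide (a = b + 1)

lemma adjC_symm : ∀ a b : Fin 5, adjC a b = adjC b a := by decide

lemma redC_symm : ∀ a b : Fin 5, redC a b = redC b a := by decide

/-- The graph. -/
def gr (n s q : ℕ) : SimpleGraph (Fin n) where
  Adj u v := u ≠ v ∧ adjC (cls s q u) (cls s q v) = true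
  symm := ⟨fun u v h => ⟨h.1.symm, by rw [adjC_symm]; exact h.2⟩⟩
  loopless := ⟨fun u h => h.1 rfl⟩

/-- The colouring. -/
def colr (n s q : ℕ) : Sym2 (Fin n) → Bool :=
  Sym2.lift ⟨fun u v => redC (cls s q u) (cls s q v), fun _ _ => redC_symm _ _⟩

lemma red_two : ∀ a b c : Fin 5, adjC a b = true → adjC a c = true → adjC b c = true →
    redC a b = true → redC a c = true → redC b c = true →
    2 ≤ (if a = 0 then 1 else 0) + (if b = 0 then 1 else 0) + (if c = 0 then 1 else 0) := by
  decide

lemma blue_two : ∀ a b c : Fin 5, adjC a b = true → adjC a c = true → adjC b c = true →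
    redC a b = false → redC a c = false → redC b c = false →
    2 ≤ (if a = 1 then 1 else 0) + (if b = 1 then 1 else 0) + (if c = 1 then 1 else 0) := by
  decide

lemma cls_zero {s q v : ℕ} (h : cls s q v = 0) : 3 * s ≤ v ∧ v < 3 * s + q := by
  unfold cls at h
  split_ifs at h with h1 h2 h3 h4
  · exact absurd h (by decide)
  · exact absurd h (by decide)
  · exact absurd h (by decide)
  · exact ⟨by omega, h4⟩
  · exact absurd h (by decide)

lemma cls_one {s q v : ℕ} (h : cls s q v = 1) : 3 * s + q ≤ v := by
  unfold cls at h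
  split_ifs at h with h1 h2 h3 h4
  · exact absurd h (by decide)
  · exact absurd h (by decide)
  · exact absurd h (by decide)
  · exact absurd h (by decide)
  · omega

/-- Number of vertices in class `0`. -/
lemma card_zero (n s q : ℕ) : #{v : Fin n | cls s q v = 0} ≤ q := by
  have h := Finset.card_le_card_of_injOn (s := {v : Fin n | cls s q v = 0})
    (t := Finset.Ico (3 * s) (3 * s + q)) (fun v => v.val) ?_ ?_
  · simpa using h
  · intro v hv
    have hv' : cls s q v = 0 := by simpa using hv
    have := cls_zero hv'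
    simp only [Finset.coe_Ico, Set.mem_Ico]
    exact this
  · intro a _ b _ hab
    exact Fin.ext hab

/-- Number of vertices in class `1`. -/
lemma card_one (n s q : ℕ) : #{v : Fin n | cls s q v = 1} ≤ n - (3 * s + q) := by
  have h := Finset.card_le_card_of_injOn (s := {v : Fin n | cls s q v = 1})
    (t := Finset.Ico (3 * s + q) n) (fun v => v.val) ?_ ?_
  · simpa using h
  · intro v hv
    have hv' : cls s q v = 1 := by simpa using hv
    have := cls_one hv'
    simp only [Finset.coe_Ico, Set.mem_Ico]
    exact ⟨this, v.isLt⟩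
  · intro a _ b _ hab
    exact Fin.ext hab

/-- Counting: if every one of `m` disjoint triples contains at least two elements of the
set `{v | P v}` then this set has at least `2 m` elements. -/
lemma count {V : Type} [Fintype V] (P : V → Prop) [DecidablePred P] {m : ℕ}
    (t : Fin m × Fin 3 → V) (ht : Function.Injective t)
    (h : ∀ i, 2 ≤ (if P (t (i, 0)) then 1 else 0) + (if P (t (i, 1)) then 1 else 0)
      + (if P (t (i, 2)) then 1 else 0)) : 2 * m ≤ #{v : V | P v} := by
  classical
  have h1 : #{x : Fin m × Fin 3 | P (t x)} ≤ #{v : V | P v} := by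
    refine Finset.card_le_card_of_injOn t ?_ ht.injOn
    intro x hx
    simpa using hx
  have h2 : #{x : Fin m × Fin 3 | P (t x)} = ∑ i : Fin m, ∑ j : Fin 3,
      (if P (t (i, j)) then 1 else 0) := by
    rw [Finset.card_filter, Fintype.sum_prod_type]
  have h3 : ∑ _i : Fin m, 2 ≤ ∑ i : Fin m, ∑ j : Fin 3,
      (if P (t (i, j)) then 1 else 0) := by
    refine Finset.sum_le_sum fun i _ => ?_
    rw [Fin.sum_univ_three]
    exact h i
  rw [Finset.sum_const, Finset.card_univ, Fintype.card_fin, smul_eq_mul] at h3
  omega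

/-- No monochromatic tiling with `m` triangles. -/
lemma noTiling (n s q m : ℕ) (hq : q < 2 * m) (hr : n < 3 * s + q + 2 * m) :
    ¬ HasMonoTiling (gr n s q) (colr n s q) m := by
  rintro ⟨b, t, ht, h⟩
  have key : ∀ i, ∀ j k : Fin 3, j ≠ k →
      adjC (cls s q (t (i, j))) (cls s q (t (i, k))) = true ∧
      redC (cls s q (t (i, j))) (cls s q (t (i, k))) = b := by
    intro i j k hjk
    obtain ⟨h1, h2⟩ := h i j k hjk
    exact ⟨h1.2, h2⟩
  cases b with
  | true =>
    have := count (fun v : Fin n => cls s q v = 0) t ht (fun i => by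
      have h01 := key i 0 1 (by decide)
      have h02 := key i 0 2 (by decide)
      have h12 := key i 1 2 (by decide)
      exact red_two _ _ _ h01.1 h02.1 h12.1 h01.2 h02.2 h12.2)
    have h0 := card_zero n s q
    omega
  | false =>
    have := count (fun v : Fin n => cls s q v = 1) t ht (fun i => by
      have h01 := key i 0 1 (by decide)
      have h02 := key i 0 2 (by decide)
      have h12 := key i 1 2 (by decide)
      exact blue_two _ _ _ h01.1 h02.1 h12.1 h01.2 h02.2 h12.2)
    have h0 := card_one n s q
    omega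

/-- The number of vertices which are not adjacent to `v`. -/
lemma card_nonadj (n s q : ℕ) (hs : 1 ≤ s) (v : Fin n) [DecidableRel (gr n s q).Adj] :
    #{u : Fin n | ¬ (gr n s q).Adj v u} ≤ s := by
  classical
  -- the nonneighbours lie in an interval of length `s`
  have key : ∃ b : ℕ, ∀ u : Fin n, ¬ (gr n s q).Adj v u → b ≤ u.val ∧ u.val < b + s := by
    by_cases hc : cls s q v = 0 ∨ cls s q v = 1
    · refine ⟨v.val, fun u hu => ?_⟩
      by_cases huv : v = u
      · subst huv; omega
      · exfalso
        refine hu ⟨huv, ?_⟩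
        rcases hc with hc | hc <;> rw [hc] <;> generalize cls s q u = a <;> revert a <;> decide
    · push Not at hc
      have same : ∀ u : Fin n, ¬ (gr n s q).Adj v u → cls s q u = cls s q v := by
        intro u hu
        by_contra hne
        refine hu ⟨fun e => hne (by rw [e]), ?_⟩
        unfold adjC
        simp [Ne.symm hne]
      have hv : v.val < 3 * s := by
        by_contra hv
        have h0 := hc.1
        have h1 := hc.2
        unfold cls at h0 h1
        split_ifs at h0 h1 <;> omega
      refine ⟨if v.val < s then 0 else if v.val < 2 * s then s else 2 * s, fun u hu => ?_⟩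
      have e := same u hu
      unfold cls at e
      split_ifs at e ⊢ <;> omega
  obtain ⟨b, hb⟩ := key
  have h := Finset.card_le_card_of_injOn (s := {u : Fin n | ¬ (gr n s q).Adj v u})
    (t := Finset.Ico b (b + s)) (fun v => v.val) ?_ ?_
  · simpa using h
  · intro u hu
    have hu' : ¬ (gr n s q).Adj v u := by simpa using hu
    simp only [Finset.coe_Ico, Set.mem_Ico]
    exact hb u hu'
  · intro x _ y _ hxy
    exact Fin.ext hxy

lemma degree_eq (n s q : ℕ) (v : Fin n) [DecidableRel (gr n s q).Adj] :
    (gr n s q).degree v + #{u : Fin n | ¬ (gr n s q).Adj v u} = n := by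
  have h := Finset.card_filter_add_card_filter_not (s := (Finset.univ : Finset (Fin n)))
    (fun u => (gr n s q).Adj v u)
  rw [Finset.card_univ, Fintype.card_fin] at h
  rw [← SimpleGraph.card_neighborFinset_eq_degree]
  have e : (gr n s q).neighborFinset v =
      Finset.univ.filter (fun u : Fin n => (gr n s q).Adj v u) := by
    ext u
    simp
  rw [e]
  exact h

/-- The minimum degree is `n - s`. -/
lemma minDegree_eq (n s q : ℕ) (hs : 1 ≤ s) (h3 : 3 * s ≤ n) [DecidableRel (gr n s q).Adj] :
    (gr n s q).minDegree = n - s := by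
  have hn : 0 < n := by omega
  have : Nonempty (Fin n) := ⟨⟨0, hn⟩⟩
  apply le_antisymm
  · refine ((gr n s q).minDegree_le_degree ⟨0, hn⟩).trans ?_
    have h1 := degree_eq n s q ⟨0, hn⟩
    have h2 : s ≤ #{u : Fin n | ¬ (gr n s q).Adj ⟨0, hn⟩ u} := by
      have h := Finset.card_le_card_of_injOn (s := (Finset.univ : Finset (Fin s)))
        (t := {u : Fin n | ¬ (gr n s q).Adj ⟨0, hn⟩ u})
        (fun i => (⟨i.val, by omega⟩ : Fin n)) ?_ ?_
      · simpa using h
      · intro i _
        have hi := i.isLt
        simp only [Finset.coe_filter, Finset.mem_univ, true_and, Set.mem_ofPred_eq]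
        intro hadj
        have h2 := hadj.2
        have c0 : cls s q 0 = 2 := by unfold cls; rw [if_pos (by omega)]
        have ci : cls s q i.val = 2 := by unfold cls; rw [if_pos hi]
        simp only [c0, ci] at h2
        exact absurd h2 (by decide)
      · intro x _ y _ hxy
        simp only [Fin.mk.injEq] at hxy
        exact Fin.ext hxy
    omega
  · refine (gr n s q).le_minDegree_of_forall_le_degree _ fun v => ?_
    have h1 := degree_eq n s q v
    have h2 := card_nonadj n s q hs v
    omega

/-- The general construction. -/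
theorem construction (n s m : ℕ) (hs : 1 ≤ s) (h3 : 3 * s ≤ n) (hm : n + 2 ≤ 3 * s + 4 * m) :
    ∃ (G : SimpleGraph (Fin n)) (c : Sym2 (Fin n) → Bool),
      (∀ [DecidableRel G.Adj], G.minDegree = n - s) ∧
      ∀ m', m ≤ m' → ¬ HasMonoTiling G c m' := by
  refine ⟨gr n s ((n - 3 * s) / 2), colr n s ((n - 3 * s) / 2), ?_, fun m' hm' => ?_⟩
  · intro _
    exact minDegree_eq n s _ hs h3
  · exact noTiling n s _ m' (by omega) (by omega)

/-- Arithmetic for small `n`. -/
lemma small : ∀ n < 120, 54 ≤ n → ∃ s < n, 1 ≤ s ∧ 3 * s ≤ n ∧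
    ((15 * n ≤ 17 * (n - s) ∧ n + 2 ≤ 3 * s + 4 * ((n - s + 1) / 5)) ∨
      (6 * n ≤ 7 * (n - s) ∧ 17 * (n - s) ≤ 15 * n ∧
        n + 2 ≤ 3 * s + 4 * ((4 * (n - s) + 1 - 3 * n) / 3))) := by
  decide +kernel

lemma not_assertion (n s : ℕ) (hs : 1 ≤ s) (h3 : 3 * s ≤ n)
    (h : (15 * n ≤ 17 * (n - s) ∧ n + 2 ≤ 3 * s + 4 * ((n - s + 1) / 5)) ∨
      (6 * n ≤ 7 * (n - s) ∧ 17 * (n - s) ≤ 15 * n ∧
        n + 2 ≤ 3 * s + 4 * ((4 * (n - s) + 1 - 3 * n) / 3))) : ¬ Assertion n := by
  classical
  intro hA
  rcases h with ⟨h1, h2⟩ | ⟨h1, h2, h4⟩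
  · obtain ⟨G, c, hG, hT⟩ := construction n s _ hs h3 h2
    have hA' := (hA G c).1
    have hG' := @hG (fun a b => Classical.propDecidable _)
    rw [hG'] at hA'
    exact hT _ le_rfl (hA' h1)
  · obtain ⟨G, c, hG, hT⟩ := construction n s _ hs h3 h4
    have hA' := (hA G c).2.1
    have hG' := @hG (fun a b => Classical.propDecidable _)
    rw [hG'] at hA'
    exact hT _ le_rfl (hA' h1 h2)

/-- **Main theorem.**

1. Let `n` and `δ` satisfy `6 n + 10 ≤ 7 δ` and `11 δ + 22 ≤ 10 n`. There is a graph `G`
with `n` vertices and minimum degree `δ` and a 2-edge-colouring of `G` such that `G` has no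
monochromatic copy of `m K₃`, neither for the value `m = ⌊(δ + 1) / 5⌋` of (C.1) nor for the
value `m = ⌊(4 δ - 3 n + 1) / 3⌋` of (C.2); more precisely, there is no such copy for all
`m ≥ (3 δ - 2 n + 2) / 4`.

2. The assertion of Q1 fails for every `n ≥ 54`, and for `n = 27`; in particular Q1 is
false. -/
theorem result :
    (∀ n δ : ℕ, 6 * n + 10 ≤ 7 * δ → 11 * δ + 22 ≤ 10 * n →
      ∃ (G : SimpleGraph (Fin n)) (c : Sym2 (Fin n) → Bool),
        (∀ [DecidableRel G.Adj], G.minDegree = δ) ∧
        ¬ HasMonoTiling G c ((δ + 1) / 5) ∧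
        ¬ HasMonoTiling G c ((4 * δ + 1 - 3 * n) / 3) ∧
        ∀ m : ℕ, 3 * δ + 2 ≤ 2 * n + 4 * m → ¬ HasMonoTiling G c m) ∧
    (∀ n : ℕ, 54 ≤ n → ¬ Assertion n) ∧
    ¬ Assertion 27 ∧
    ¬ ∀ n : ℕ, 25 ≤ n → Assertion n := by
  have h54 : ∀ n : ℕ, 54 ≤ n → ¬ Assertion n := by
    intro n hn
    by_cases h : n < 120
    · obtain ⟨s, _, h1, h2, h3⟩ := small n h hn
      exact not_assertion n s h1 h2 h3
    · refine not_assertion n (2 * n / 17) (by omega) (by omega) (Or.inl ⟨by omega, by omega⟩)
  refine ⟨fun n δ h1 h2 => ?_, h54, ?_, fun h => h54 54 le_rfl (h 54 (by norm_num))⟩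
  · obtain ⟨G, c, hG, hT⟩ := construction n (n - δ) ((3 * δ + 2 - 2 * n + 3) / 4)
      (by omega) (by omega) (by omega)
    refine ⟨G, c, ?_, hT _ (by omega), hT _ (by omega), fun m hm => hT _ (by omega)⟩
    intro _
    rw [hG]
    omega
  · exact not_assertion 27 3 (by norm_num) (by norm_num) (Or.inl ⟨by norm_num, by norm_num⟩)

end Pool.Agent.Results.MP_61eff6_co.TilingBoundsFail
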